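import Mathlib

/-!
# Schauder's theorem and adjoint eigenvectors
-/

set_option autoImplicit false

open Filter Topology Metric

namespace Pool.Agent.X205.LipSpec

universe u

variable {E : Type u} [NormedAddCommGroup E] [NormedSpace ℂ E]

/-- The adjoint operator `φ ↦ φ ∘ T`. -/
noncomputable def dualOp (T : E →L[ℂ] E) : StrongDual ℂ E →L[ℂ] StrongDual ℂ E :=
  (ContinuousLinearMap.compL ℂ E E ℂ).flip T

theorem dualOp_apply (T : E →L[ℂ] E) (φ : StrongDual ℂ E) (v : E) :
    dualOp T φ v = φ (T v) := rfl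

/-- Schauder's theorem. -/
theorem dualOp_compact [CompleteSpace E] (T : E →L[ℂ] E) (hT : IsCompactOperator T) :
    IsCompactOperator (dualOp T) := by
  have hK : IsCompact (closure (T '' closedBall (0 : E) 1)) :=
    (isCompactOperator_iff_isCompact_closure_image_closedBall (T : E →ₗ[ℂ] E) one_pos).1 hT
  have key : TotallyBounded (dualOp T '' closedBall (0 : StrongDual ℂ E) 1) := by
    rw [Metric.totallyBounded_iff]
    intro ε hε
    obtain ⟨Y, hYfin, hY⟩ := Metric.totallyBounded_iff.1 hK.totallyBounded (ε / 4) (by positivity)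
    have hYft : Fintype Y := hYfin.fintype
    -- evaluation on the finite net
    let ev : StrongDual ℂ E → (Y → ℂ) := fun φ y => φ y
    have hbd : TotallyBounded (ev '' closedBall (0 : StrongDual ℂ E) 1) := by
      suffices hb : Bornology.IsBounded (ev '' closedBall (0 : StrongDual ℂ E) 1) from
        hb.isCompact_closure.totallyBounded.subset subset_closure
      rw [isBounded_iff_forall_norm_le]
      refine ⟨∑ y : Y, ‖(y : E)‖, ?_⟩
      rintro _ ⟨φ, hφ, rfl⟩
      rw [pi_norm_le_iff_of_nonneg (Finset.sum_nonneg fun _ _ => norm_nonneg _)]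
      intro y
      rw [mem_closedBall_zero_iff] at hφ
      calc ‖φ y‖ ≤ ‖φ‖ * ‖(y : E)‖ := φ.le_opNorm _
        _ ≤ 1 * ‖(y : E)‖ := by gcongr
        _ = ‖(y : E)‖ := one_mul _
        _ ≤ ∑ y : Y, ‖(y : E)‖ :=
            Finset.single_le_sum (f := fun y : Y => ‖(y : E)‖) (fun _ _ => norm_nonneg _)
              (Finset.mem_univ y)
    obtain ⟨t, ht1, ht2, ht3⟩ := Metric.finite_approx_of_totallyBounded hbd (ε / 4) (by positivity)
    have ht1' : ∀ w : Y → ℂ, ∃ c : StrongDual ℂ E, w ∈ t → c ∈ closedBall (0 : StrongDual ℂ E) 1 ∧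
        ev c = w := by
      intro w
      by_cases hw : w ∈ t
      · obtain ⟨c, hc1, hc2⟩ := ht1 hw
        exact ⟨c, fun _ => ⟨hc1, hc2⟩⟩
      · exact ⟨0, fun h => absurd h hw⟩
    choose c hc using ht1'
    refine ⟨(fun w => dualOp T (c w)) '' t, ht2.image _, ?_⟩
    rintro _ ⟨φ, hφ, rfl⟩
    have h1 := ht3 (Set.mem_image_of_mem ev hφ)
    rw [Set.mem_iUnion₂] at h1
    obtain ⟨w, hw, hd⟩ := h1
    rw [Set.mem_iUnion₂]
    refine ⟨dualOp T (c w), Set.mem_image_of_mem _ hw, ?_⟩
    rw [mem_ball, dist_eq_norm, ← map_sub]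
    have hc1' := (hc w hw).1
    have hc2' := (hc w hw).2
    rw [mem_closedBall_zero_iff] at hc1' hφ
    rw [mem_ball, dist_eq_norm, pi_norm_lt_iff (by positivity)] at hd
    refine lt_of_le_of_lt ?_ (show 3 * ε / 4 < ε by linarith)
    refine ContinuousLinearMap.opNorm_le_of_unit_norm (by positivity) fun x hx => ?_
    rw [dualOp_apply]
    have hx' : T x ∈ closure (T '' closedBall (0 : E) 1) :=
      subset_closure (Set.mem_image_of_mem _ (by rw [mem_closedBall_zero_iff, hx]))
    have h2 := hY hx'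
    rw [Set.mem_iUnion₂] at h2
    obtain ⟨y, hy, hdy⟩ := h2
    rw [mem_ball, dist_eq_norm] at hdy
    have h3 : ‖(φ - c w) y‖ ≤ ε / 4 := by
      have h4 := hd ⟨y, hy⟩
      have h5 : (ev φ - w) ⟨y, hy⟩ = (φ - c w) y := by
        have h9 : w ⟨y, hy⟩ = c w y := by
          conv_lhs => rw [← hc2']
        rw [Pi.sub_apply, h9]
        rfl
      rw [h5] at h4
      exact h4.le
    have h6 : ‖φ - c w‖ ≤ 2 := by
      calc ‖φ - c w‖ ≤ ‖φ‖ + ‖c w‖ := norm_sub_le _ _
        _ ≤ 1 + 1 := add_le_add hφ hc1'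
        _ = 2 := by norm_num
    calc ‖(φ - c w) (T x)‖ = ‖(φ - c w) (T x - y) + (φ - c w) y‖ := by rw [map_sub]; simp
      _ ≤ ‖(φ - c w) (T x - y)‖ + ‖(φ - c w) y‖ := norm_add_le _ _
      _ ≤ 2 * (ε / 4) + ε / 4 := by
          refine add_le_add (((φ - c w).le_opNorm _).trans ?_) h3
          exact mul_le_mul h6 hdy.le (norm_nonneg _) (by norm_num)
      _ = 3 * ε / 4 := by ring
  rw [show (dualOp T : StrongDual ℂ E → StrongDual ℂ E) =
    ((dualOp T : StrongDual ℂ E →L[ℂ] StrongDual ℂ E) :
      StrongDual ℂ E →ₗ[ℂ] StrongDual ℂ E) from rfl,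
    isCompactOperator_iff_isCompact_closure_image_closedBall _ one_pos]
  exact TotallyBounded.isCompact_of_isClosed key.closure isClosed_closure

/-- If `T` is compact, `l ≠ 0` and `T - l` is not bijective then the adjoint of `T` has an
eigenvector for `l`. -/
theorem exists_dual_eigenvector [CompleteSpace E] (T : E →L[ℂ] E) (hT : IsCompactOperator T)
    {l : ℂ} (hl : l ≠ 0) (hb : ¬ Function.Bijective (fun v => T v - l • v)) :
    ∃ φ : StrongDual ℂ E, φ ≠ 0 ∧ ∀ v, φ (T v) = l * φ v := by
  rcases (dualOp_compact T hT).hasEigenvalue_or_mem_resolventSet hl with h | h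
  · obtain ⟨φ, hφ⟩ := h.exists_hasEigenvector
    refine ⟨φ, hφ.2, fun v => ?_⟩
    have h1 := hφ.apply_eq_smul
    have h2 := congrArg (fun ψ : StrongDual ℂ E => ψ v) h1
    exact h2
  · exfalso
    apply hb
    rw [spectrum.mem_resolventSet_iff, ← IsUnit.neg_iff,
      ContinuousLinearMap.isUnit_iff_bijective] at h
    have hS : ∀ ψ : StrongDual ℂ E, ∃ φ : StrongDual ℂ E, ∀ v, φ (T v - l • v) = ψ v := by
      intro ψ
      obtain ⟨φ, hφ⟩ := h.2 ψ
      refine ⟨φ, fun v => ?_⟩
      have h2 := congrArg (fun ψ : StrongDual ℂ E => ψ v) hφ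
      simp only [neg_sub] at h2
      rw [← h2, map_sub, map_smul]
      rfl
    have hinj : ∀ φ : StrongDual ℂ E, (∀ v, φ (T v - l • v) = 0) → φ = 0 := by
      intro φ hφ
      apply h.1
      rw [map_zero]
      ext v
      have h3 := hφ v
      rw [map_sub, map_smul] at h3
      simp only [neg_sub]
      exact h3
    -- bounded below
    let S : E →L[ℂ] E := T - l • (1 : E →L[ℂ] E)
    have hSv : ∀ v, S v = T v - l • v := fun v => rfl
    have hsurj' : Function.Surjective (dualOp S) := by
      intro ψ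
      obtain ⟨φ, hφ⟩ := hS ψ
      exact ⟨φ, by ext v; exact hφ v⟩
    obtain ⟨C, hC0, hC⟩ := (dualOp S).exists_preimage_norm_le hsurj'
    have hbelow : ∀ v, ‖v‖ ≤ C * ‖S v‖ := by
      intro v
      obtain ⟨g, hg1, hg2⟩ := exists_dual_vector'' ℂ v
      obtain ⟨φ, hφ1, hφ2⟩ := hC g
      have h4 : φ (S v) = g v := by rw [← hφ1]; rfl
      calc ‖v‖ = ‖g v‖ := by rw [hg2]; simp
        _ = ‖φ (S v)‖ := by rw [h4]
        _ ≤ ‖φ‖ * ‖S v‖ := φ.le_opNorm _
        _ ≤ (C * ‖g‖) * ‖S v‖ := by gcongr
        _ ≤ (C * 1) * ‖S v‖ := by gcongr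
        _ = C * ‖S v‖ := by rw [mul_one]
    have hanti : AntilipschitzWith (Real.toNNReal C) S :=
      AddMonoidHomClass.antilipschitz_of_bound S fun v => by
        rw [Real.coe_toNNReal _ hC0.le]; exact hbelow v
    have hclosed : IsClosed (Set.range S) := hanti.isClosed_range S.uniformContinuous
    constructor
    · exact hanti.injective
    · -- the range is dense
      have hrange : LinearMap.range (S : E →ₗ[ℂ] E) = ⊤ := by
        by_contra hne
        have hcl : IsClosed ((LinearMap.range (S : E →ₗ[ℂ] E) : Submodule ℂ E) : Set E) := by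
          rw [LinearMap.coe_range]; exact hclosed
        obtain ⟨x, hx⟩ : ∃ x, x ∉ LinearMap.range (S : E →ₗ[ℂ] E) := by
          by_contra hall
          push Not at hall
          exact hne (Submodule.eq_top_iff'.2 hall)
        have hconv : Convex ℝ ((LinearMap.range (S : E →ₗ[ℂ] E) : Submodule ℂ E) : Set E) :=
          ((LinearMap.range (S : E →ₗ[ℂ] E)).restrictScalars ℝ).convex
        obtain ⟨g, u, hg1, hg2⟩ :=
          RCLike.geometric_hahn_banach_closed_point (𝕜 := ℂ) hconv hcl hx
        have hz : ∀ v, g (S v) = 0 := by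
          intro v
          have hre : ∀ w, Complex.re (g (S w)) = 0 := by
            intro w
            by_contra hne0
            have h5 := hg1 (S ((((u + 1) / Complex.re (g (S w)) : ℝ) : ℂ) • w)) ⟨_, rfl⟩
            rw [map_smul, map_smul, smul_eq_mul] at h5
            have h6 : RCLike.re ((((u + 1) / Complex.re (g (S w)) : ℝ) : ℂ) * g (S w)) = u + 1 := by
              rw [RCLike.re_eq_complex_re, Complex.re_ofReal_mul, div_mul_cancel₀ _ hne0]
            rw [h6] at h5
            linarith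
          apply Complex.ext
          · rw [hre v]; rfl
          · have h7 := hre (Complex.I • v)
            rw [map_smul, map_smul, smul_eq_mul] at h7
            simp at h7
            rw [h7]; rfl
        have hg0 : g = 0 := hinj g fun v => by rw [← hSv]; exact hz v
        have h8 := hg1 0 (Submodule.zero_mem _)
        rw [hg0] at h8 hg2
        simp at h8 hg2
        linarith
      intro y
      have : y ∈ LinearMap.range (S : E →ₗ[ℂ] E) := by rw [hrange]; trivial
      obtain ⟨v, hv⟩ := this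
      exact ⟨v, hv⟩

end Pool.Agent.X205.LipSpec
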