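import Mathlib
import Pool.Agent.X205.LipSpec.Schauder

/-!
# Complex Lipschitz functions and the complex Lipschitz-free space
-/

set_option autoImplicit false

noncomputable section

open Filter Topology Metric

namespace Pool.Agent.X205.LipSpec

universe u

/-- The vector space of Lipschitz functions `M → ℂ` vanishing at the base point `o`. -/
def lipSub (M : Type u) [MetricSpace M] (o : M) : Submodule ℂ (M → ℂ) where
  carrier := {f | f o = 0 ∧ ∃ K : ℝ, 0 ≤ K ∧ ∀ x y, ‖f x - f y‖ ≤ K * dist x y}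
  zero_mem' := ⟨rfl, 0, le_rfl, fun x y => by simp⟩
  add_mem' := by
    rintro f g ⟨hf, K, hK, hfK⟩ ⟨hg, L, hL, hgL⟩
    refine ⟨by simp [hf, hg], K + L, by positivity, fun x y => ?_⟩
    have h1 := hfK x y
    have h2 := hgL x y
    have : (f + g) x - (f + g) y = (f x - f y) + (g x - g y) := by
      simp only [Pi.add_apply]; ring
    rw [this]
    calc _ ≤ ‖f x - f y‖ + ‖g x - g y‖ := norm_add_le _ _
      _ ≤ _ := by rw [add_mul]; exact add_le_add h1 h2
  smul_mem' := by
    rintro c f ⟨hf, K, hK, hfK⟩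
    refine ⟨by simp [hf], ‖c‖ * K, by positivity, fun x y => ?_⟩
    have h1 := hfK x y
    have : (c • f) x - (c • f) y = c * (f x - f y) := by
      simp only [Pi.smul_apply, smul_eq_mul]; ring
    rw [this, norm_mul, mul_assoc]
    exact mul_le_mul_of_nonneg_left h1 (norm_nonneg _)

/-- `Lip0 M o`: the space of Lipschitz functions `M → ℂ` vanishing at `o`, normed by the
least Lipschitz constant. -/
def Lip0 (M : Type u) [MetricSpace M] (o : M) : Type u := ↥(lipSub M o)

variable {M : Type u} [MetricSpace M] {o : M}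

/-- The underlying function. -/
def Lip0.fn (f : Lip0 M o) : M → ℂ := f.1

section raw

/-- pointwise addition -/
local instance lipACG : AddCommGroup (Lip0 M o) := Submodule.addCommGroup (lipSub M o)
/-- pointwise scalar multiplication -/
local instance lipMod : Module ℂ (Lip0 M o) := Submodule.module (lipSub M o)

/-- The norm: the least Lipschitz constant. -/
instance : Norm (Lip0 M o) :=
  ⟨fun f => sInf {K : ℝ | 0 ≤ K ∧ ∀ x y, ‖f.fn x - f.fn y‖ ≤ K * dist x y}⟩

theorem Lip0.ext {f g : Lip0 M o} (h : ∀ x, f.fn x = g.fn x) : f = g :=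
  Subtype.ext (funext h)

theorem Lip0.fn_add' (f g : Lip0 M o) (x : M) : (f + g).fn x = f.fn x + g.fn x := rfl
theorem Lip0.fn_smul' (c : ℂ) (f : Lip0 M o) (x : M) : (c • f).fn x = c * f.fn x := rfl
theorem Lip0.fn_zero' (x : M) : (0 : Lip0 M o).fn x = 0 := rfl
@[simp] theorem Lip0.fn_base (f : Lip0 M o) : f.fn o = 0 := f.2.1

/-- Constructor. -/
def Lip0.mk (f : M → ℂ) (h0 : f o = 0) (K : ℝ) (hK : 0 ≤ K)
    (h : ∀ x y, ‖f x - f y‖ ≤ K * dist x y) : Lip0 M o := ⟨f, h0, K, hK, h⟩

@[simp] theorem Lip0.fn_mk (f : M → ℂ) (h0 : f o = 0) (K : ℝ) (hK : 0 ≤ K)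
    (h : ∀ x y, ‖f x - f y‖ ≤ K * dist x y) (x : M) :
    (Lip0.mk f h0 K hK h).fn x = f x := rfl

theorem Lip0.set_nonempty (f : Lip0 M o) :
    {K : ℝ | 0 ≤ K ∧ ∀ x y, ‖f.fn x - f.fn y‖ ≤ K * dist x y}.Nonempty := by
  obtain ⟨K, hK, h⟩ := f.2.2
  exact ⟨K, hK, h⟩

theorem Lip0.norm_def (f : Lip0 M o) :
    ‖f‖ = sInf {K : ℝ | 0 ≤ K ∧ ∀ x y, ‖f.fn x - f.fn y‖ ≤ K * dist x y} := rfl

theorem Lip0.norm_le' (f : Lip0 M o) {K : ℝ} (hK : 0 ≤ K)
    (h : ∀ x y, ‖f.fn x - f.fn y‖ ≤ K * dist x y) : ‖f‖ ≤ K :=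
  csInf_le ⟨0, fun _ h => h.1⟩ ⟨hK, h⟩

theorem Lip0.norm_nonneg' (f : Lip0 M o) : 0 ≤ ‖f‖ :=
  le_csInf f.set_nonempty fun _ h => h.1

theorem Lip0.norm_sub_le (f : Lip0 M o) (x y : M) : ‖f.fn x - f.fn y‖ ≤ ‖f‖ * dist x y := by
  rcases eq_or_ne x y with rfl | hxy
  · simp
  · have hd : 0 < dist x y := dist_pos.2 hxy
    rw [← div_le_iff₀ hd]
    refine le_csInf f.set_nonempty ?_
    rintro K ⟨_, hK⟩
    rw [div_le_iff₀ hd]
    exact hK x y

theorem Lip0.core : NormedSpace.Core ℂ (Lip0 M o) where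
  norm_nonneg f := f.norm_nonneg'
  norm_smul c f := by
    apply le_antisymm
    · refine Lip0.norm_le' _ (mul_nonneg (norm_nonneg _) f.norm_nonneg') fun x y => ?_
      have h1 := f.norm_sub_le x y
      have : (c • f).fn x - (c • f).fn y = c * (f.fn x - f.fn y) := by
        simp only [Lip0.fn_smul']; ring
      rw [this, norm_mul, mul_assoc]
      exact mul_le_mul_of_nonneg_left h1 (norm_nonneg _)
    · rcases eq_or_ne c 0 with rfl | hc
      · simp only [norm_zero, zero_mul]; exact Lip0.norm_nonneg' _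
      · have hc' : 0 < ‖c‖ := norm_pos_iff.2 hc
        rw [← le_div_iff₀' hc']
        refine Lip0.norm_le' _ (div_nonneg (Lip0.norm_nonneg' _) hc'.le) fun x y => ?_
        have h1 := (c • f).norm_sub_le x y
        have : (c • f).fn x - (c • f).fn y = c * (f.fn x - f.fn y) := by
          simp only [Lip0.fn_smul']; ring
        rw [this, norm_mul] at h1
        rw [div_mul_eq_mul_div, le_div_iff₀ hc']
        rw [mul_comm]
        exact h1
  norm_triangle f g := by
    refine Lip0.norm_le' _ (add_nonneg f.norm_nonneg' g.norm_nonneg') fun x y => ?_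
    have h1 := f.norm_sub_le x y
    have h2 := g.norm_sub_le x y
    have : (f + g).fn x - (f + g).fn y = (f.fn x - f.fn y) + (g.fn x - g.fn y) := by
      simp only [Lip0.fn_add']; ring
    rw [this]
    calc _ ≤ ‖f.fn x - f.fn y‖ + ‖g.fn x - g.fn y‖ := norm_add_le _ _
      _ ≤ _ := by rw [add_mul]; exact add_le_add h1 h2
  norm_eq_zero_iff f := by
    constructor
    · intro h
      apply Lip0.ext
      intro x
      have h1 := f.norm_sub_le x o
      rw [h, zero_mul, Lip0.fn_base, sub_zero] at h1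
      exact norm_le_zero_iff.1 h1
    · rintro rfl
      apply le_antisymm _ (Lip0.norm_nonneg' _)
      refine Lip0.norm_le' _ le_rfl fun x y => by simp [Lip0.fn_zero']

instance : NormedAddCommGroup (Lip0 M o) := NormedAddCommGroup.ofCore (Lip0.core (M := M) (o := o))
instance : NormedSpace ℂ (Lip0 M o) := NormedSpace.ofCore (Lip0.core (M := M) (o := o))

end raw

@[simp] theorem Lip0.fn_add (f g : Lip0 M o) (x : M) : (f + g).fn x = f.fn x + g.fn x := rfl
@[simp] theorem Lip0.fn_sub (f g : Lip0 M o) (x : M) : (f - g).fn x = f.fn x - g.fn x := rfl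
@[simp] theorem Lip0.fn_smul (c : ℂ) (f : Lip0 M o) (x : M) : (c • f).fn x = c * f.fn x := rfl
@[simp] theorem Lip0.fn_zero (x : M) : (0 : Lip0 M o).fn x = 0 := rfl

theorem Lip0.norm_fn_le (f : Lip0 M o) (x : M) : ‖f.fn x‖ ≤ ‖f‖ * dist x o := by
  have := f.norm_sub_le x o
  rwa [Lip0.fn_base, sub_zero] at this

/-- The evaluation functional at `x`. -/
def dlt (M : Type u) [MetricSpace M] (o : M) (x : M) : StrongDual ℂ (Lip0 M o) :=
  LinearMap.mkContinuous
    { toFun := fun f => f.fn x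
      map_add' := fun _ _ => rfl
      map_smul' := fun _ _ => rfl } (dist x o) (fun f => by
        rw [mul_comm]
        exact f.norm_fn_le x)

@[simp] theorem dlt_apply (x : M) (f : Lip0 M o) : dlt M o x f = f.fn x := rfl

/-- The Lipschitz-free space `F(M)`: the closed linear span of the evaluation functionals in the
dual of `Lip0 M o`. -/
def LFree (M : Type u) [MetricSpace M] (o : M) : Submodule ℂ (StrongDual ℂ (Lip0 M o)) :=
  (Submodule.span ℂ (Set.range (dlt M o))).topologicalClosure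

/-- The Lipschitz-free space `F(M)`, as a normed space. -/
def FreeSp (M : Type u) [MetricSpace M] (o : M) : Type u := ↥(LFree M o)

instance : NormedAddCommGroup (FreeSp M o) := Submodule.normedAddCommGroup (LFree M o)
instance : NormedSpace ℂ (FreeSp M o) := Submodule.normedSpace (LFree M o)

instance : CompleteSpace (FreeSp M o) :=
  IsClosed.completeSpace_coe (hs := Submodule.isClosed_topologicalClosure
    (Submodule.span ℂ (Set.range (dlt M o))))

theorem dlt_mem (x : M) : dlt M o x ∈ LFree M o :=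
  Submodule.le_topologicalClosure _ (Submodule.subset_span ⟨x, rfl⟩)

/-- The evaluation functional `δ(x)` as an element of `F(M)`. -/
def dl (M : Type u) [MetricSpace M] (o : M) (x : M) : FreeSp M o := ⟨dlt M o x, dlt_mem x⟩

/-- the pairing of `F(M)` with `Lip0 M o` -/
theorem dl_apply (x : M) (h : Lip0 M o) : (dl M o x).1 h = h.fn x := rfl

theorem norm_dl_sub_le (x y : M) : ‖dl M o x - dl M o y‖ ≤ dist x y := by
  change ‖dlt M o x - dlt M o y‖ ≤ dist x y
  refine ContinuousLinearMap.opNorm_le_bound _ dist_nonneg fun f => ?_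
  have := f.norm_sub_le x y
  rw [mul_comm]
  exact this

/-- A Lipschitz function from a real function. -/
def realLip (h : M → ℝ) (hl : ∀ x y, |h x - h y| ≤ dist x y) : Lip0 M o :=
  Lip0.mk (fun x => ((h x - h o : ℝ) : ℂ)) (by simp) 1 zero_le_one fun x y => by
    rw [← Complex.ofReal_sub, Complex.norm_real, Real.norm_eq_abs]
    have := hl x y
    rw [show h x - h o - (h y - h o) = h x - h y by ring, one_mul]
    exact this

theorem realLip_fn (h : M → ℝ) (hl : ∀ x y, |h x - h y| ≤ dist x y) (x : M) :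
    (realLip (o := o) h hl).fn x = ((h x - h o : ℝ) : ℂ) := rfl

theorem realLip_norm (h : M → ℝ) (hl : ∀ x y, |h x - h y| ≤ dist x y) :
    ‖realLip (o := o) h hl‖ ≤ 1 := by
  refine Lip0.norm_le' _ zero_le_one fun x y => ?_
  rw [realLip_fn, realLip_fn, ← Complex.ofReal_sub, Complex.norm_real, Real.norm_eq_abs]
  have := hl x y
  rw [show h x - h o - (h y - h o) = h x - h y by ring, one_mul]
  exact this

theorem dist_le_norm_dl_sub (x y : M) : dist x y ≤ ‖dl M o x - dl M o y‖ := by
  have hl : ∀ a b : M, |dist a y - dist b y| ≤ dist a b := fun a b => abs_dist_sub_le a b y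
  have h1 := (dlt M o x - dlt M o y).le_opNorm (realLip (o := o) (fun z => dist z y) hl)
  have h2 : (dlt M o x - dlt M o y) (realLip (o := o) (fun z => dist z y) hl)
      = ((dist x y : ℝ) : ℂ) := by
    rw [sub_apply, dlt_apply, dlt_apply, realLip_fn, realLip_fn,
      ← Complex.ofReal_sub]
    congr 1
    rw [dist_self]; ring
  rw [h2, Complex.norm_real, Real.norm_of_nonneg dist_nonneg] at h1
  calc dist x y ≤ _ := h1
    _ ≤ ‖dlt M o x - dlt M o y‖ * 1 :=
        mul_le_mul_of_nonneg_left (realLip_norm _ hl) (norm_nonneg _)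
    _ = _ := mul_one _

theorem dl_base : dl M o o = 0 := by
  apply Subtype.ext
  ext h
  exact h.fn_base

theorem norm_dl_le (x : M) : ‖dl M o x‖ ≤ dist x o := by
  have := norm_dl_sub_le (o := o) x o
  rwa [dl_base, sub_zero] at this

theorem pair_le (v : FreeSp M o) (h : Lip0 M o) : ‖v.1 h‖ ≤ ‖v‖ * ‖h‖ := v.1.le_opNorm h

/-- Constructor for elements of `F(M)`. -/
def mkF (w : StrongDual ℂ (Lip0 M o)) (hw : w ∈ LFree M o) : FreeSp M o := ⟨w, hw⟩

/-- If a bounded functional on `F(M)` vanishes on all `δ(x)`, it is zero. -/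
theorem dual_ext {φ : StrongDual ℂ (FreeSp M o)} (h : ∀ x, φ (dl M o x) = 0) : φ = 0 := by
  have hcl : IsClosed {v : FreeSp M o | φ v = 0} := isClosed_eq φ.continuous continuous_const
  -- elements of the span
  have hspan : ∀ w : StrongDual ℂ (Lip0 M o), ∀ (hw : w ∈ Submodule.span ℂ (Set.range (dlt M o))),
      φ (mkF w (Submodule.le_topologicalClosure _ hw)) = 0 := by
    intro w hw
    induction hw using Submodule.span_induction with
    | mem x hx =>
      obtain ⟨p, rfl⟩ := hx
      exact h p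
    | zero => exact map_zero φ
    | add x y hx hy ihx ihy =>
      have := map_add φ (mkF x (Submodule.le_topologicalClosure _ hx))
        (mkF y (Submodule.le_topologicalClosure _ hy))
      rw [ihx, ihy, add_zero] at this
      exact this
    | smul c x hx ih =>
      have := map_smul φ c (mkF x (Submodule.le_topologicalClosure _ hx))
      rw [ih, smul_zero] at this
      exact this
  ext v
  change φ v = 0
  have hv' : v.1 ∈ closure ((Submodule.span ℂ (Set.range (dlt M o)) : Submodule ℂ _) : Set _) := v.2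
  have hmem : v ∈ closure {w : FreeSp M o | φ w = 0} := by
    rw [Metric.mem_closure_iff]
    intro ε hε
    obtain ⟨w, hw, hd⟩ := Metric.mem_closure_iff.1 hv' ε hε
    exact ⟨mkF w (Submodule.le_topologicalClosure _ hw), hspan w hw, hd⟩
  rw [hcl.closure_eq] at hmem
  exact hmem

/-- Lemma L: bounded sequences in `Lip0` which tend to zero pointwise tend to zero on every
element of `F(M)`. -/
theorem tendsto_pair {h : ℕ → Lip0 M o} {C : ℝ} (hC : ∀ n, ‖h n‖ ≤ C)
    (h0 : ∀ x, Tendsto (fun n => (h n).fn x) atTop (𝓝 0)) (v : FreeSp M o) :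
    Tendsto (fun n => v.1 (h n)) atTop (𝓝 0) := by
  have hspan : ∀ w ∈ Submodule.span ℂ (Set.range (dlt M o)),
      Tendsto (fun n => w (h n)) atTop (𝓝 0) := by
    intro w hw
    induction hw using Submodule.span_induction with
    | mem x hx =>
      obtain ⟨p, rfl⟩ := hx
      exact h0 p
    | zero => simp
    | add x y hx hy ihx ihy => simpa using ihx.add ihy
    | smul c x hx ih => simpa using ih.const_mul c
  have hC0 : 0 ≤ C := (norm_nonneg _).trans (hC 0)
  have hv' : v.1 ∈ closure ((Submodule.span ℂ (Set.range (dlt M o)) : Submodule ℂ _) : Set _) := v.2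
  rw [Metric.tendsto_atTop]
  intro ε hε
  obtain ⟨w, hw, hd⟩ := Metric.mem_closure_iff.1 hv' (ε / (2 * (C + 1))) (by positivity)
  obtain ⟨N, hN⟩ := (Metric.tendsto_atTop.1 (hspan w hw)) (ε / 2) (by positivity)
  refine ⟨N, fun n hn => ?_⟩
  have h1 := hN n hn
  rw [dist_zero_right] at h1 ⊢
  rw [dist_eq_norm] at hd
  have h2 : v.1 (h n) = (v.1 - w) (h n) + w (h n) := by
    rw [sub_apply]; ring
  rw [h2]
  have h3 : ‖(v.1 - w) (h n)‖ ≤ ε / 2 := by
    calc _ ≤ ‖v.1 - w‖ * ‖h n‖ := (v.1 - w).le_opNorm _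
      _ ≤ (ε / (2 * (C + 1))) * (C + 1) := by
          refine mul_le_mul hd.le ((hC n).trans (by linarith)) (norm_nonneg _) (by positivity)
      _ = ε / 2 := by field_simp
  calc _ ≤ ‖(v.1 - w) (h n)‖ + ‖w (h n)‖ := norm_add_le _ _
    _ < ε / 2 + ε / 2 := add_lt_add_of_le_of_lt h3 h1
    _ = ε := by ring

/-- Lemma C: the same, uniformly on compact sets. -/
theorem eventually_pair_le {h : ℕ → Lip0 M o} {C : ℝ} (hC : ∀ n, ‖h n‖ ≤ C)
    (h0 : ∀ x, Tendsto (fun n => (h n).fn x) atTop (𝓝 0)) {K : Set (FreeSp M o)}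
    (hK : IsCompact K) {ε : ℝ} (hε : 0 < ε) :
    ∀ᶠ n in atTop, ∀ v ∈ K, ‖v.1 (h n)‖ < ε := by
  have hC0 : 0 ≤ C := (norm_nonneg _).trans (hC 0)
  obtain ⟨Y, hYfin, hY⟩ := Metric.totallyBounded_iff.1 hK.totallyBounded (ε / (2 * (C + 1)))
    (by positivity)
  have h1 : ∀ y ∈ Y, ∀ᶠ n in atTop, ‖y.1 (h n)‖ < ε / 2 := by
    intro y _
    have := (tendsto_pair hC h0 y).norm
    rw [norm_zero] at this
    exact this.eventually (gt_mem_nhds (by positivity))
  have h2 := (Filter.eventually_all_finite hYfin).2 h1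
  filter_upwards [h2] with n hn v hv
  have h3 := hY hv
  rw [Set.mem_iUnion₂] at h3
  obtain ⟨y, hy, hd⟩ := h3
  rw [mem_ball, dist_eq_norm] at hd
  have h4 : v.1 (h n) = (v - y).1 (h n) + y.1 (h n) := by
    have h6 : (v - y).1 (h n) = v.1 (h n) - y.1 (h n) := rfl
    rw [h6]; ring
  rw [h4]
  have h5 : ‖(v - y).1 (h n)‖ ≤ ε / 2 := by
    calc _ ≤ ‖v - y‖ * ‖h n‖ := pair_le _ _
      _ ≤ (ε / (2 * (C + 1))) * (C + 1) := by
          refine mul_le_mul hd.le ((hC n).trans (by linarith)) (norm_nonneg _) (by positivity)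
      _ = ε / 2 := by field_simp
  calc _ ≤ ‖(v - y).1 (h n)‖ + ‖y.1 (h n)‖ := norm_add_le _ _
    _ < ε / 2 + ε / 2 := add_lt_add_of_le_of_lt h5 (hn y hy)
    _ = ε := by ring

end Pool.Agent.X205.LipSpec
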