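import Mathlib
import Pool.Agent.X205.LipSpec.Free

/-!
# Consequences of compactness of the linearisation of a Lipschitz map
-/

set_option autoImplicit false

noncomputable section

open Filter Topology Metric

namespace Pool.Agent.X205.LipSpec

universe u

variable {M : Type u} [MetricSpace M] {o : M}

/-- the set of orders of the periodic points different from the base point. -/
def periods (o : M) (f : M → M) : Set ℕ :=
  {n | 1 ≤ n ∧ ∃ x, x ≠ o ∧ f^[n] x = x ∧ ∀ k, 1 ≤ k → k < n → f^[k] x ≠ x}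

theorem exists_compact {T : FreeSp M o →L[ℂ] FreeSp M o} (hT : IsCompactOperator T) (r : ℝ) :
    ∃ K : Set (FreeSp M o), IsCompact K ∧ ∀ v, ‖v‖ ≤ r → T v ∈ K := by
  obtain ⟨K, hK, h⟩ := hT.image_closedBall_subset_compact (f := (T : FreeSp M o →ₗ[ℂ] FreeSp M o)) r
  exact ⟨K, hK, fun v hv => h ⟨v, by rwa [mem_closedBall_zero_iff], rfl⟩⟩

/-- The key test: sequences `v n` in the unit ball, `h n` bounded and pointwise null. -/
theorem key_test {T : FreeSp M o →L[ℂ] FreeSp M o} (hT : IsCompactOperator T)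
    {v : ℕ → FreeSp M o} (hv : ∀ n, ‖v n‖ ≤ 1) {h : ℕ → Lip0 M o} (hh : ∀ n, ‖h n‖ ≤ 1)
    (h0 : ∀ x, Tendsto (fun n => (h n).fn x) atTop (𝓝 0)) {ε : ℝ} (hε : 0 < ε)
    (hge : ∀ n, ε ≤ ‖(T (v n)).1 (h n)‖) : False := by
  obtain ⟨K, hK, hTK⟩ := exists_compact hT 1
  obtain ⟨n, hn⟩ := (eventually_pair_le hh h0 hK hε).exists
  exact absurd (hn _ (hTK _ (hv n))) (not_lt.2 (hge n))

variable {f : M → M} {T : FreeSp M o →L[ℂ] FreeSp M o}

/-- uniform flatness -/
theorem flat (hT : IsCompactOperator T) (hTf : ∀ x, T (dl M o x) = dl M o (f x))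
    {L : ℝ} (hL : ∀ x y, dist (f x) (f y) ≤ L * dist x y) {ε : ℝ} (hε : 0 < ε) :
    ∃ δ > 0, ∀ x y, dist x y < δ → dist (f x) (f y) ≤ ε * dist x y := by
  by_contra hcon
  push Not at hcon
  have hL0 : 0 ≤ L ∨ ∀ x y : M, x = y := by
    by_contra hc
    push Not at hc
    obtain ⟨hL', x, y, hxy⟩ := hc
    have h1 := hL x y
    have h2 := dist_pos.2 hxy
    nlinarith [dist_nonneg (x := f x) (y := f y)]
  have hseq : ∀ n : ℕ, ∃ p : M × M, dist p.1 p.2 < 1 / ((n : ℝ) + 1) ∧
      ε * dist p.1 p.2 < dist (f p.1) (f p.2) := by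
    intro n
    obtain ⟨x, y, h1, h2⟩ := hcon (1 / ((n : ℝ) + 1)) (by positivity)
    exact ⟨(x, y), h1, h2⟩
  choose p hp1 hp2 using hseq
  have hne : ∀ n, (p n).1 ≠ (p n).2 := by
    intro n h
    have := hp2 n
    rw [h] at this
    simp at this
  have hL0 : 0 ≤ L := by
    rcases hL0 with h | h
    · exact h
    · exact absurd (h _ _) (hne 0)
  have hd : ∀ n, 0 < dist (p n).1 (p n).2 := fun n => dist_pos.2 (hne n)
  set r : ℕ → ℝ := fun n => dist (f (p n).1) (f (p n).2) with hr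
  have hr0 : ∀ n, 0 ≤ r n := fun n => dist_nonneg
  have hrt : Tendsto r atTop (𝓝 0) := by
    have h1 : Tendsto (fun n : ℕ => L * (1 / ((n : ℝ) + 1))) atTop (𝓝 0) := by
      simpa using (tendsto_one_div_add_atTop_nhds_zero_nat (𝕜 := ℝ)).const_mul L
    refine squeeze_zero hr0 (fun n => ?_) h1
    calc r n ≤ L * dist (p n).1 (p n).2 := hL _ _
      _ ≤ L * (1 / ((n : ℝ) + 1)) := mul_le_mul_of_nonneg_left (hp1 n).le hL0
  -- the test functions
  let g : ℕ → M → ℝ := fun n z => max 0 (r n - dist z (f (p n).1))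
  have hg : ∀ n x y, |g n x - g n y| ≤ dist x y := by
    intro n x y
    refine (abs_max_sub_max_le_max 0 (r n - dist x (f (p n).1)) 0
      (r n - dist y (f (p n).1))).trans ?_
    have h1 := abs_dist_sub_le y x (f (p n).1)
    rw [show r n - dist x (f (p n).1) - (r n - dist y (f (p n).1))
      = dist y (f (p n).1) - dist x (f (p n).1) by ring, dist_comm x y, sub_zero, abs_zero]
    exact max_le dist_nonneg h1
  have hg01 : ∀ n z, 0 ≤ g n z ∧ g n z ≤ r n := by
    intro n z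
    refine ⟨le_max_left _ _, max_le (hr0 n) ?_⟩
    have := dist_nonneg (x := z) (y := f (p n).1)
    linarith
  let h : ℕ → Lip0 M o := fun n => realLip (g n) (hg n)
  have hh : ∀ n, ‖h n‖ ≤ 1 := fun n => realLip_norm _ _
  have h0 : ∀ x, Tendsto (fun n => (h n).fn x) atTop (𝓝 0) := by
    intro x
    rw [tendsto_zero_iff_norm_tendsto_zero]
    refine squeeze_zero (fun n => norm_nonneg _) (fun n => ?_) hrt
    change ‖(realLip (g n) (hg n)).fn x‖ ≤ r n
    rw [realLip_fn, Complex.norm_real, Real.norm_eq_abs, abs_le]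
    constructor <;> linarith [(hg01 n x).1, (hg01 n x).2, (hg01 n o).1, (hg01 n o).2]
  let v : ℕ → FreeSp M o := fun n =>
    ((dist (p n).1 (p n).2 : ℝ) : ℂ)⁻¹ • (dl M o (p n).1 - dl M o (p n).2)
  have hv : ∀ n, ‖v n‖ ≤ 1 := by
    intro n
    change ‖((dist (p n).1 (p n).2 : ℝ) : ℂ)⁻¹ • (dl M o (p n).1 - dl M o (p n).2)‖ ≤ 1
    rw [norm_smul, norm_inv, Complex.norm_real, Real.norm_of_nonneg dist_nonneg,
      inv_mul_le_iff₀ (hd n), mul_one]
    exact norm_dl_sub_le _ _
  refine key_test hT hv hh h0 hε fun n => ?_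
  have h1 : (T (v n)).1 (h n) = (((dist (p n).1 (p n).2)⁻¹ * r n : ℝ) : ℂ) := by
    have h2 : T (v n) = ((dist (p n).1 (p n).2 : ℝ) : ℂ)⁻¹ •
        (dl M o (f (p n).1) - dl M o (f (p n).2)) := by
      change T (((dist (p n).1 (p n).2 : ℝ) : ℂ)⁻¹ • (dl M o (p n).1 - dl M o (p n).2)) = _
      rw [map_smul, map_sub, hTf, hTf]
    rw [h2]
    have h3 : (((dist (p n).1 (p n).2 : ℝ) : ℂ)⁻¹ •
        (dl M o (f (p n).1) - dl M o (f (p n).2))).1 (h n)
        = ((dist (p n).1 (p n).2 : ℝ) : ℂ)⁻¹ * ((h n).fn (f (p n).1) - (h n).fn (f (p n).2)) := rfl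
    rw [h3]
    have h4 : (h n).fn (f (p n).1) - (h n).fn (f (p n).2) = ((r n : ℝ) : ℂ) := by
      change (realLip (g n) (hg n)).fn _ - (realLip (g n) (hg n)).fn _ = _
      rw [realLip_fn, realLip_fn, ← Complex.ofReal_sub]
      congr 1
      have h5 : g n (f (p n).1) = r n := by
        change max 0 (r n - dist (f (p n).1) (f (p n).1)) = r n
        rw [dist_self, sub_zero, max_eq_right (hr0 n)]
      have h6 : g n (f (p n).2) = 0 := by
        change max 0 (r n - dist (f (p n).2) (f (p n).1)) = 0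
        rw [dist_comm (f (p n).2)]
        simp [hr]
      rw [h5, h6]; ring
    rw [h4]
    push_cast
    ring
  rw [h1, Complex.norm_real, Real.norm_of_nonneg (mul_nonneg (inv_nonneg.2 dist_nonneg) (hr0 n))]
  rw [inv_mul_eq_div, le_div_iff₀ (hd n)]
  exact (hp2 n).le

/-- radial flatness -/
theorem radial (hT : IsCompactOperator T) (hTf : ∀ x, T (dl M o x) = dl M o (f x))
    {ε : ℝ} (hε : 0 < ε) :
    ∃ R > 0, ∀ x, R ≤ dist x o → dist (f x) o ≤ ε * dist x o := by
  by_contra hcon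
  push Not at hcon
  have hseq : ∀ n : ℕ, ∃ p : M, (n : ℝ) + 1 ≤ dist p o ∧ ε * dist p o < dist (f p) o := by
    intro n
    exact hcon ((n : ℝ) + 1) (by positivity)
  choose p hp1 hp2 using hseq
  have hd : ∀ n, 0 < dist (p n) o := fun n => lt_of_lt_of_le (by positivity) (hp1 n)
  set r : ℕ → ℝ := fun n => dist (f (p n)) o / 2 with hr
  let g : ℕ → M → ℝ := fun n z => max 0 (dist z o - r n)
  have hg : ∀ n x y, |g n x - g n y| ≤ dist x y := by
    intro n x y
    refine (abs_max_sub_max_le_max 0 (dist x o - r n) 0 (dist y o - r n)).trans ?_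
    have h1 := abs_dist_sub_le x y o
    rw [show dist x o - r n - (dist y o - r n) = dist x o - dist y o by ring, sub_zero, abs_zero]
    exact max_le dist_nonneg h1
  let h : ℕ → Lip0 M o := fun n => realLip (g n) (hg n)
  have hh : ∀ n, ‖h n‖ ≤ 1 := fun n => realLip_norm _ _
  have hr0 : ∀ n, 0 ≤ r n := fun n => by rw [hr]; positivity
  have hgo : ∀ n, g n o = 0 := by
    intro n
    change max 0 (dist o o - r n) = 0
    rw [dist_self, max_eq_left]
    linarith [hr0 n]
  have hrbig : ∀ n : ℕ, ε / 2 * ((n : ℝ) + 1) ≤ r n := by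
    intro n
    change ε / 2 * ((n : ℝ) + 1) ≤ dist (f (p n)) o / 2
    have h1 := hp2 n
    have h2 := mul_le_mul_of_nonneg_left (hp1 n) hε.le
    linarith
  have h0 : ∀ x, Tendsto (fun n => (h n).fn x) atTop (𝓝 0) := by
    intro x
    refine tendsto_const_nhds.congr' ?_
    have h1 : Tendsto (fun n : ℕ => ε / 2 * ((n : ℝ) + 1)) atTop atTop := by
      refine Tendsto.const_mul_atTop (by positivity) ?_
      exact tendsto_atTop_add_const_right _ _ tendsto_natCast_atTop_atTop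
    filter_upwards [h1.eventually_ge_atTop (dist x o)] with n hn
    change (0 : ℂ) = (realLip (g n) (hg n)).fn x
    rw [realLip_fn, hgo]
    have h2 : g n x = 0 := by
      change max 0 (dist x o - r n) = 0
      rw [max_eq_left]
      linarith [hrbig n]
    rw [h2]; simp
  let v : ℕ → FreeSp M o := fun n => ((dist (p n) o : ℝ) : ℂ)⁻¹ • dl M o (p n)
  have hv : ∀ n, ‖v n‖ ≤ 1 := by
    intro n
    change ‖((dist (p n) o : ℝ) : ℂ)⁻¹ • dl M o (p n)‖ ≤ 1
    rw [norm_smul, norm_inv, Complex.norm_real, Real.norm_of_nonneg dist_nonneg,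
      inv_mul_le_iff₀ (hd n), mul_one]
    exact norm_dl_le _
  refine key_test hT hv hh h0 (half_pos hε) fun n => ?_
  have h1 : (T (v n)).1 (h n) = (((dist (p n) o)⁻¹ * r n : ℝ) : ℂ) := by
    have h2 : T (v n) = ((dist (p n) o : ℝ) : ℂ)⁻¹ • dl M o (f (p n)) := by
      change T (((dist (p n) o : ℝ) : ℂ)⁻¹ • dl M o (p n)) = _
      rw [map_smul, hTf]
    rw [h2]
    have h3 : (((dist (p n) o : ℝ) : ℂ)⁻¹ • dl M o (f (p n))).1 (h n)
        = ((dist (p n) o : ℝ) : ℂ)⁻¹ * (h n).fn (f (p n)) := rfl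
    rw [h3]
    have h4 : (h n).fn (f (p n)) = ((r n : ℝ) : ℂ) := by
      change (realLip (g n) (hg n)).fn _ = _
      rw [realLip_fn, hgo]
      congr 1
      change max 0 (dist (f (p n)) o - r n) - 0 = r n
      have h5 : dist (f (p n)) o - r n = r n := by
        change dist (f (p n)) o - dist (f (p n)) o / 2 = dist (f (p n)) o / 2
        ring
      rw [h5, max_eq_right (hr0 n), sub_zero]
    rw [h4]
    push_cast
    ring
  rw [h1, Complex.norm_real, Real.norm_of_nonneg (mul_nonneg (inv_nonneg.2 dist_nonneg) (hr0 n))]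
  rw [inv_mul_eq_div, le_div_iff₀ (hd n)]
  have := hp2 n
  change ε / 2 * dist (p n) o ≤ dist (f (p n)) o / 2
  linarith

/-- images of bounded sets are totally bounded, in the form needed here -/
theorem exists_close (hT : IsCompactOperator T) (hTf : ∀ x, T (dl M o x) = dl M o (f x))
    {u : ℕ → M} {B : ℝ} (hu : ∀ k, dist (u k) o ≤ B) {δ : ℝ} (hδ : 0 < δ) :
    ∃ p q, p < q ∧ dist (f (u p)) (f (u q)) < δ := by
  obtain ⟨K, hK, hTK⟩ := exists_compact hT B
  have hmem : ∀ k, dl M o (f (u k)) ∈ K := by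
    intro k
    rw [← hTf]
    exact hTK _ ((norm_dl_le _).trans (hu k))
  obtain ⟨w, -, φ, hφ, hlim⟩ := hK.tendsto_subseq hmem
  obtain ⟨N, hN⟩ := (Metric.tendsto_atTop.1 hlim) (δ / 2) (by positivity)
  refine ⟨φ N, φ (N + 1), hφ (Nat.lt_succ_self N), ?_⟩
  have h1 := hN N le_rfl
  have h2 := hN (N + 1) (Nat.le_succ N)
  calc dist (f (u (φ N))) (f (u (φ (N + 1)))) ≤
      ‖dl M o (f (u (φ N))) - dl M o (f (u (φ (N + 1))))‖ := dist_le_norm_dl_sub _ _
    _ = dist (dl M o (f (u (φ N)))) (dl M o (f (u (φ (N + 1))))) := (dist_eq_norm _ _).symm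
    _ ≤ dist (dl M o (f (u (φ N)))) w + dist (dl M o (f (u (φ (N + 1))))) w :=
        dist_triangle_right _ _ _
    _ < δ / 2 + δ / 2 := add_lt_add h1 h2
    _ = δ := by ring

/-- iterated contraction -/
theorem iter_contract {ε δ : ℝ} (hε0 : 0 < ε) (hε1 : ε ≤ 1)
    (hfl : ∀ x y, dist x y < δ → dist (f x) (f y) ≤ ε * dist x y) (k : ℕ) :
    ∀ x y, dist x y < δ → dist (f^[k] x) (f^[k] y) ≤ ε ^ k * dist x y := by
  induction k with
  | zero => intro x y _; simp
  | succ k ih =>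
    intro x y hxy
    rw [Function.iterate_succ_apply', Function.iterate_succ_apply']
    have h1 := ih x y hxy
    have h2 : ε ^ k * dist x y ≤ dist x y :=
      mul_le_of_le_one_left dist_nonneg (pow_le_one₀ hε0.le hε1)
    have h3 := hfl _ _ (lt_of_le_of_lt (h1.trans h2) hxy)
    calc _ ≤ ε * dist (f^[k] x) (f^[k] y) := h3
      _ ≤ ε * (ε ^ k * dist x y) := mul_le_mul_of_nonneg_left h1 hε0.le
      _ = ε ^ (k + 1) * dist x y := by ring

/-- periodic points that are `δ`-close coincide -/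
theorem periodic_eq {δ : ℝ} 
    (hfl : ∀ x y, dist x y < δ → dist (f x) (f y) ≤ (1 / 2) * dist x y) {x y : M}
    {m n : ℕ} (hm : 1 ≤ m) (hn : 1 ≤ n) (hx : f^[m] x = x) (hy : f^[n] y = y)
    (hxy : dist x y < δ) : x = y := by
  have h1 : f^[m * n] x = x := by
    rw [Function.iterate_mul]; exact Function.iterate_fixed hx n
  have h2 : f^[m * n] y = y := by
    rw [mul_comm, Function.iterate_mul]; exact Function.iterate_fixed hy m
  have h3 := iter_contract (by norm_num) (by norm_num) hfl (m * n) x y hxy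
  rw [h1, h2] at h3
  have h4 : ((1 : ℝ) / 2) ^ (m * n) ≤ 1 / 2 := by
    have : 1 ≤ m * n := Nat.mul_pos hm hn
    calc ((1 : ℝ) / 2) ^ (m * n) ≤ (1 / 2) ^ 1 :=
          pow_le_pow_of_le_one (by norm_num) (by norm_num) this
      _ = 1 / 2 := pow_one _
  have h5 : dist x y ≤ 1 / 2 * dist x y := h3.trans (mul_le_mul_of_nonneg_right h4 dist_nonneg)
  have h6 : dist x y ≤ 0 := by linarith
  exact dist_le_zero.1 h6

end Pool.Agent.X205.LipSpec
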