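import Mathlib
import Pool.Agent.X205.LipSpec.Dyn

/-!
# The spectrum of a compact Lipschitz operator
-/

set_option autoImplicit false

noncomputable section

open Filter Topology Metric

namespace Pool.Agent.X205.LipSpec

universe u

variable {M : Type u} [MetricSpace M] {o : M} {f : M → M} {T : FreeSp M o →L[ℂ] FreeSp M o}

/-- there is an invariant ball containing any given point -/
theorem exists_ball (hT : IsCompactOperator T) (hTf : ∀ x, T (dl M o x) = dl M o (f x))
    {L : ℝ} (hL0 : 0 ≤ L) (hL : ∀ x y, dist (f x) (f y) ≤ L * dist x y) (hf0 : f o = o) (x : M) :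
    ∃ B : ℝ, ∀ k, dist (f^[k] x) o ≤ B := by
  obtain ⟨R, hR, hrad⟩ := radial hT hTf (ε := 1 / 2) (by norm_num)
  refine ⟨max (dist x o) (L * R), fun k => ?_⟩
  induction k with
  | zero => exact le_max_left _ _
  | succ k ih =>
    rw [Function.iterate_succ_apply']
    set z := f^[k] x
    by_cases hz : R ≤ dist z o
    · have h1 := hrad z hz
      have h2 : dist (f z) o ≤ dist z o := h1.trans (by linarith [dist_nonneg (x := z) (y := o)])
      exact h2.trans ih
    · push Not at hz
      refine le_trans ?_ (le_max_right _ _)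
      have h1 := hL z o
      rw [hf0] at h1
      exact h1.trans (mul_le_mul_of_nonneg_left hz.le hL0)

/-- periodic points lie in a fixed ball -/
theorem periodic_bdd (hT : IsCompactOperator T) (hTf : ∀ x, T (dl M o x) = dl M o (f x))
    {L : ℝ} (hL0 : 0 ≤ L) (hL : ∀ x y, dist (f x) (f y) ≤ L * dist x y) (hf0 : f o = o) :
    ∃ B : ℝ, ∀ x, ∀ n, 1 ≤ n → f^[n] x = x → dist x o ≤ B := by
  obtain ⟨R, hR, hrad⟩ := radial hT hTf (ε := 1 / 2) (by norm_num)
  refine ⟨max R (L * R), fun x n hn hx => ?_⟩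
  by_contra hcon
  push Not at hcon
  -- the orbit decreases until it gets below `R` and then it stays below `max`.
  have key : ∀ k, dist (f^[k + 1] x) o < dist x o := by
    intro k
    induction k with
    | zero =>
      have h1 := hrad x ((le_max_left _ _).trans hcon.le)
      simp only [zero_add, Function.iterate_one]
      have h2 : 0 < dist x o := lt_of_lt_of_le hR ((le_max_left _ _).trans hcon.le)
      linarith
    | succ k ih =>
      rw [Function.iterate_succ_apply']
      set z := f^[k + 1] x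
      by_cases hz : R ≤ dist z o
      · have h1 := hrad z hz
        linarith [dist_nonneg (x := z) (y := o)]
      · push Not at hz
        have h1 := hL z o
        rw [hf0] at h1
        exact lt_of_le_of_lt ((h1.trans (mul_le_mul_of_nonneg_left hz.le hL0)).trans
          (le_max_right _ _)) hcon
  obtain ⟨m, rfl⟩ := Nat.exists_eq_add_of_le' hn
  have := key m
  rw [hx] at this
  exact lt_irrefl _ this

/-- the set of periodic points is finite. -/
theorem periodic_finite (hT : IsCompactOperator T) (hTf : ∀ x, T (dl M o x) = dl M o (f x))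
    {L : ℝ} (hL0 : 0 ≤ L) (hL : ∀ x y, dist (f x) (f y) ≤ L * dist x y) (hf0 : f o = o) :
    {x | ∃ n, 1 ≤ n ∧ f^[n] x = x}.Finite := by
  by_contra hinf
  have hinf : {x | ∃ n, 1 ≤ n ∧ f^[n] x = x}.Infinite := hinf
  obtain ⟨δ, hδ, hfl⟩ := flat hT hTf hL (ε := 1 / 2) (by norm_num)
  obtain ⟨B, hB⟩ := periodic_bdd hT hTf hL0 hL hf0
  let e := hinf.natEmbedding
  have hu : ∀ k, dist ((e k : M)) o ≤ B := by
    intro k
    obtain ⟨n, hn, hx⟩ := (e k).2
    exact hB _ n hn hx
  obtain ⟨p, q, hpq, hclose⟩ := exists_close hT hTf hu hδ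
  obtain ⟨m, hm, hx⟩ := (e p).2
  obtain ⟨n, hn, hy⟩ := (e q).2
  have hfx : f^[m] (f (e p)) = f (e p) := by
    rw [← Function.iterate_succ_apply, Function.iterate_succ_apply', hx]
  have hfy : f^[n] (f (e q)) = f (e q) := by
    rw [← Function.iterate_succ_apply, Function.iterate_succ_apply', hy]
  have h1 : f (e p) = f (e q) := periodic_eq hfl hm hn hfx hfy hclose
  have h2 : (e p : M) = (e q : M) := by
    have h3 : f^[m * n] (e p : M) = (e p : M) := by
      rw [Function.iterate_mul]; exact Function.iterate_fixed hx n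
    have h4 : f^[m * n] (e q : M) = (e q : M) := by
      rw [mul_comm, Function.iterate_mul]; exact Function.iterate_fixed hy m
    have h5 : 1 ≤ m * n := Nat.mul_pos hm hn
    obtain ⟨t, ht⟩ := Nat.exists_eq_add_of_le' h5
    rw [ht, Function.iterate_succ_apply] at h3 h4
    rw [← h3, ← h4, h1]
  have h3 : p = q := e.injective (Subtype.ext h2)
  omega

theorem periods_finite (hT : IsCompactOperator T) (hTf : ∀ x, T (dl M o x) = dl M o (f x))
    {L : ℝ} (hL0 : 0 ≤ L) (hL : ∀ x y, dist (f x) (f y) ≤ L * dist x y) (hf0 : f o = o) :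
    (periods o f).Finite := by
  have hfin := periodic_finite hT hTf hL0 hL hf0
  have hch : ∀ n ∈ periods o f, ∃ x ∈ {x | ∃ n, 1 ≤ n ∧ f^[n] x = x}, Function.minimalPeriod f x = n := by
    rintro n ⟨hn, x, hxo, hx, hmin⟩
    refine ⟨x, ⟨n, hn, hx⟩, ?_⟩
    have h1 : Function.IsPeriodicPt f n x := hx
    refine le_antisymm (h1.minimalPeriod_le hn) ?_
    by_contra hlt
    push Not at hlt
    exact hmin _ (h1.minimalPeriod_pos hn) hlt (Function.isPeriodicPt_minimalPeriod f x)
  refine (hfin.image (Function.minimalPeriod f)).subset ?_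
  intro n hn
  obtain ⟨x, hx, hxn⟩ := hch n hn
  exact ⟨x, hx, hxn⟩

/-- eigenfunctions force periodic points -/
theorem eigen_period [CompleteSpace M] (hT : IsCompactOperator T)
    (hTf : ∀ x, T (dl M o x) = dl M o (f x))
    {L : ℝ} (hL0 : 0 ≤ L) (hL : ∀ x y, dist (f x) (f y) ≤ L * dist x y) (hf0 : f o = o)
    {l : ℂ} (hl : l ≠ 0) {φ : StrongDual ℂ (FreeSp M o)} (hφ : φ ≠ 0)
    (hφT : ∀ v, φ (T v) = l * φ v) : ∃ n ∈ periods o f, l ^ n = 1 := by
  set g : M → ℂ := fun x => φ (dl M o x) with hg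
  have hgf : ∀ x, g (f x) = l * g x := by
    intro x
    change φ (dl M o (f x)) = l * φ (dl M o x)
    rw [← hTf, hφT]
  have hgk : ∀ k x, g (f^[k] x) = l ^ k * g x := by
    intro k
    induction k with
    | zero => intro x; simp
    | succ k ih => intro x; rw [Function.iterate_succ_apply', hgf, ih]; ring
  have hglip : ∀ x y, ‖g x - g y‖ ≤ ‖φ‖ * dist x y := by
    intro x y
    change ‖φ (dl M o x) - φ (dl M o y)‖ ≤ _
    rw [← map_sub]
    exact (φ.le_opNorm _).trans (mul_le_mul_of_nonneg_left (norm_dl_sub_le _ _) (norm_nonneg _))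
  have hgo : g o = 0 := by
    change φ (dl M o o) = 0
    rw [dl_base, map_zero]
  obtain ⟨x, hx⟩ : ∃ x, g x ≠ 0 := by
    by_contra h
    push Not at h
    exact hφ (dual_ext h)
  have hlpos : 0 < ‖l‖ := norm_pos_iff.2 hl
  set ε : ℝ := min (1 / 2) (‖l‖ / 2) with hε
  have hε0 : 0 < ε := by rw [hε]; positivity
  have hε1 : ε ≤ 1 / 2 := min_le_left _ _
  have hε2 : ε ≤ ‖l‖ / 2 := min_le_right _ _
  obtain ⟨δ, hδ, hfl⟩ := flat hT hTf hL hε0
  obtain ⟨B, hB⟩ := exists_ball hT hTf hL0 hL hf0 x
  obtain ⟨p, q, hpq, hclose⟩ := exists_close hT hTf hB hδ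
  -- `y j = f^[j n] (f^[p+1] x)`
  set n := q - p with hn
  have hn1 : 1 ≤ n := by omega
  set y0 := f^[p + 1] x with hy0
  have hq : f^[n] y0 = f^[q + 1] x := by
    rw [hy0, ← Function.iterate_add_apply]
    congr 1
    omega
  have hc0 : dist y0 (f^[n] y0) < δ := by
    rw [hq, hy0, Function.iterate_succ_apply', Function.iterate_succ_apply']
    exact hclose
  have hgy0 : g y0 ≠ 0 := by
    rw [hy0, hgk]
    exact mul_ne_zero (pow_ne_zero _ hl) hx
  let y : ℕ → M := fun j => f^[n * j] y0
  have hstep : ∀ j, dist (y j) (y (j + 1)) ≤ (ε ^ n) ^ j * δ := by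
    intro j
    have h1 := iter_contract (k := n * j) hε0 (hε1.trans (by norm_num)) hfl _ _ hc0
    have h2 : y (j + 1) = f^[n * j] (f^[n] y0) := by
      change f^[n * (j + 1)] y0 = _
      rw [mul_add, mul_one, Function.iterate_add_apply]
    rw [h2, ← pow_mul]
    exact h1.trans (mul_le_mul_of_nonneg_left hc0.le (by positivity))
  have hr1 : ε ^ n ≤ 1 / 2 := by
    calc ε ^ n ≤ ε ^ 1 := pow_le_pow_of_le_one hε0.le (hε1.trans (by norm_num)) hn1
      _ = ε := pow_one _
      _ ≤ 1 / 2 := hε1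
  have hr0 : 0 < ε ^ n := by positivity
  have hcau : CauchySeq y := by
    refine cauchySeq_of_le_geometric (ε ^ n) δ (by linarith) fun j => ?_
    rw [mul_comm]
    exact hstep j
  obtain ⟨ω, hω⟩ := cauchySeq_tendsto_of_complete hcau
  have hfc : Continuous f := by
    have : LipschitzWith (Real.toNNReal L) f := LipschitzWith.of_dist_le_mul fun a b => by
      rw [Real.coe_toNNReal _ hL0]; exact hL a b
    exact this.continuous
  have hfix : f^[n] ω = ω := by
    have h1 : Tendsto (fun j => f^[n] (y j)) atTop (𝓝 (f^[n] ω)) :=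
      ((hfc.iterate n).tendsto ω).comp hω
    have h2 : (fun j => f^[n] (y j)) = fun j => y (j + 1) := by
      funext j
      change f^[n] (f^[n * j] y0) = f^[n * (j + 1)] y0
      rw [← Function.iterate_add_apply]
      congr 1
      ring
    rw [h2] at h1
    exact tendsto_nhds_unique h1 (hω.comp (tendsto_add_atTop_nat 1))
  have hdist : ∀ j, dist (y j) ω ≤ δ * (ε ^ n) ^ j / (1 - ε ^ n) := by
    intro j
    exact dist_le_of_le_geometric_of_tendsto (ε ^ n) δ (by linarith)
      (fun j => by rw [mul_comm]; exact hstep j) hω j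
  -- the eigenfunction does not vanish at the limit
  have hgω : g ω ≠ 0 := by
    intro h0
    have h1 : ∀ j, (‖l‖ ^ n) ^ j * ‖g y0‖ ≤ ‖φ‖ * (2 * δ) * (ε ^ n) ^ j := by
      intro j
      have h2 := hglip (y j) ω
      rw [h0, sub_zero] at h2
      have h3 : g (y j) = l ^ (n * j) * g y0 := hgk _ _
      rw [h3, norm_mul, norm_pow, pow_mul] at h2
      refine h2.trans ?_
      have h4 : dist (y j) ω ≤ 2 * δ * (ε ^ n) ^ j := by
        refine (hdist j).trans ?_
        rw [div_le_iff₀ (by linarith)]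
        have : 0 ≤ δ * (ε ^ n) ^ j := by positivity
        nlinarith
      calc ‖φ‖ * dist (y j) ω ≤ ‖φ‖ * (2 * δ * (ε ^ n) ^ j) :=
            mul_le_mul_of_nonneg_left h4 (norm_nonneg _)
        _ = _ := by ring
    have h5 : ∀ j : ℕ, (2 : ℝ) ^ j * ‖g y0‖ ≤ ‖φ‖ * (2 * δ) := by
      intro j
      have h6 : (2 * ε ^ n) ^ j ≤ (‖l‖ ^ n) ^ j := by
        refine pow_le_pow_left₀ (by positivity) ?_ j
        calc 2 * ε ^ n ≤ 2 ^ n * ε ^ n := by
              refine mul_le_mul_of_nonneg_right ?_ hr0.le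
              calc (2 : ℝ) = 2 ^ 1 := (pow_one _).symm
                _ ≤ 2 ^ n := pow_le_pow_right₀ (by norm_num) hn1
          _ = (2 * ε) ^ n := (mul_pow _ _ _).symm
          _ ≤ ‖l‖ ^ n := pow_le_pow_left₀ (by positivity) (by linarith) n
      have h7 := h1 j
      have h8 : (2 * ε ^ n) ^ j * ‖g y0‖ ≤ ‖φ‖ * (2 * δ) * (ε ^ n) ^ j :=
        (mul_le_mul_of_nonneg_right h6 (norm_nonneg _)).trans h7
      rw [mul_pow] at h8
      have h9 : 0 < (ε ^ n) ^ j := by positivity
      have h10 : (2 ^ j * ‖g y0‖) * (ε ^ n) ^ j ≤ ‖φ‖ * (2 * δ) * (ε ^ n) ^ j := by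
        calc _ = 2 ^ j * (ε ^ n) ^ j * ‖g y0‖ := by ring
          _ ≤ _ := h8
      exact le_of_mul_le_mul_right h10 h9
    have h11 : Tendsto (fun j : ℕ => (2 : ℝ) ^ j * ‖g y0‖) atTop atTop :=
      (tendsto_pow_atTop_atTop_of_one_lt (by norm_num)).atTop_mul_const (norm_pos_iff.2 hgy0)
    obtain ⟨j, hj⟩ := (h11.eventually_gt_atTop (‖φ‖ * (2 * δ))).exists
    exact absurd (h5 j) (not_le.2 hj)
  have hωo : ω ≠ o := by
    intro h
    rw [h] at hgω
    exact hgω hgo
  have hper : Function.IsPeriodicPt f n ω := hfix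
  set m := Function.minimalPeriod f ω with hm
  have hmper : f^[m] ω = ω := Function.isPeriodicPt_minimalPeriod f ω
  have hm1 : 1 ≤ m := hper.minimalPeriod_pos hn1
  refine ⟨m, ⟨hm1, ω, hωo, hmper, fun k hk hkm hkk => ?_⟩, ?_⟩
  · have h1 : Function.IsPeriodicPt f k ω := hkk
    have := h1.minimalPeriod_le hk
    omega
  · have h1 := hgk m ω
    rw [hmper] at h1
    have h2 : (l ^ m - 1) * g ω = 0 := by
      rw [sub_mul, one_mul, ← h1, sub_self]
    rcases mul_eq_zero.1 h2 with h3 | h3
    · exact sub_eq_zero.1 h3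
    · exact absurd h3 hgω

/-- periodic points give eigenvalues. -/
theorem period_eigen (hTf : ∀ x, T (dl M o x) = dl M o (f x))
    {n : ℕ} (hn : n ∈ periods o f) {z : ℂ} (hz : z ^ n = 1) :
    ∃ v : FreeSp M o, v ≠ 0 ∧ T v = z • v := by
  obtain ⟨hn1, x, hxo, hx, hmin⟩ := hn
  have hz0 : z ≠ 0 := by
    rintro rfl
    rw [zero_pow (by omega)] at hz
    exact zero_ne_one hz
  -- points of the orbit differ from `x` and `o`
  have hne : ∀ k ∈ Finset.Ico 1 n, f^[k] x ≠ x := by
    intro k hk
    rw [Finset.mem_Ico] at hk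
    exact hmin k hk.1 hk.2
  refine ⟨∑ k ∈ Finset.range n, (z ^ k)⁻¹ • dl M o (f^[k] x), ?_, ?_⟩
  · intro h0
    -- radius
    obtain ⟨r, hr, hro, hrk⟩ : ∃ r : ℝ, 0 < r ∧ r ≤ dist o x ∧
        ∀ k ∈ Finset.Ico 1 n, r ≤ dist (f^[k] x) x := by
      let S : Finset ℝ := insert (dist o x) ((Finset.Ico 1 n).image fun k => dist (f^[k] x) x)
      have hS : S.Nonempty := Finset.insert_nonempty _ _
      refine ⟨S.min' hS, ?_, ?_, ?_⟩
      · rw [Finset.lt_min'_iff]
        intro y hy
        rw [Finset.mem_insert, Finset.mem_image] at hy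
        rcases hy with rfl | ⟨k, hk, rfl⟩
        · exact dist_pos.2 (Ne.symm hxo)
        · exact dist_pos.2 (hne k hk)
      · exact Finset.min'_le _ _ (Finset.mem_insert_self _ _)
      · intro k hk
        exact Finset.min'_le _ _ (Finset.mem_insert_of_mem (Finset.mem_image_of_mem _ hk))
    have hgl : ∀ a b : M, |max 0 (r - dist a x) - max 0 (r - dist b x)| ≤ dist a b := by
      intro a b
      refine (abs_max_sub_max_le_max 0 (r - dist a x) 0 (r - dist b x)).trans ?_
      have h1 := abs_dist_sub_le b a x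
      rw [show r - dist a x - (r - dist b x) = dist b x - dist a x by ring, dist_comm a b,
        sub_zero, abs_zero]
      exact max_le dist_nonneg h1
    let h : Lip0 M o := realLip (fun a => max 0 (r - dist a x)) hgl
    have ho : max 0 (r - dist o x) = 0 := max_eq_left (by linarith)
    have hfn : ∀ a, h.fn a = ((max 0 (r - dist a x) : ℝ) : ℂ) := by
      intro a
      change (realLip _ hgl).fn a = _
      rw [realLip_fn, ho, sub_zero]
    have hval : ∀ (s : Finset ℕ), (∑ k ∈ s, (z ^ k)⁻¹ • dl M o (f^[k] x)).1 h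
        = ∑ k ∈ s, (z ^ k)⁻¹ * h.fn (f^[k] x) := by
      intro s
      induction s using Finset.induction_on with
      | empty => rfl
      | insert a s ha ih =>
        rw [Finset.sum_insert ha, Finset.sum_insert ha, ← ih]
        rfl
    have h1 := hval (Finset.range n)
    rw [h0] at h1
    have h2 : ∑ k ∈ Finset.range n, (z ^ k)⁻¹ * h.fn (f^[k] x) = ((r : ℝ) : ℂ) := by
      rw [Finset.sum_eq_single 0]
      · rw [pow_zero, inv_one, one_mul, hfn]
        simp [hr.le]
      · intro k hk hk0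
        rw [Finset.mem_range] at hk
        rw [hfn, max_eq_left]
        · simp
        · have := hrk k (Finset.mem_Ico.2 ⟨by omega, hk⟩)
          linarith
      · intro h
        exfalso
        apply h
        rw [Finset.mem_range]
        omega
    rw [h2] at h1
    have h3 : (0 : ℂ) = ((r : ℝ) : ℂ) := h1
    have h4 : r = 0 := by exact_mod_cast h3.symm
    exact absurd h4 hr.ne'
  · rw [map_sum]
    have h1 : ∀ k ∈ Finset.range n, T ((z ^ k)⁻¹ • dl M o (f^[k] x))
        = z • ((z ^ (k + 1))⁻¹ • dl M o (f^[k + 1] x)) := by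
      intro k _
      rw [map_smul, hTf, ← Function.iterate_succ_apply' f, smul_smul]
      congr 1
      rw [pow_succ]
      field_simp
    rw [Finset.sum_congr rfl h1, ← Finset.smul_sum]
    congr 1
    have h2 := Finset.sum_range_succ (fun k => (z ^ k)⁻¹ • dl M o (f^[k] x)) n
    have h3 := Finset.sum_range_succ' (fun k => (z ^ k)⁻¹ • dl M o (f^[k] x)) n
    rw [h2] at h3
    have h4 : (z ^ n)⁻¹ • dl M o (f^[n] x) = (z ^ 0)⁻¹ • dl M o (f^[0] x) := by
      rw [hz, hx, pow_zero]
      rfl
    rw [h4] at h3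
    exact (add_right_cancel h3).symm

/-- The main theorem. -/
theorem main [CompleteSpace M] (hT : IsCompactOperator T)
    (hTf : ∀ x, T (dl M o x) = dl M o (f x))
    {L : ℝ} (hL0 : 0 ≤ L) (hL : ∀ x y, dist (f x) (f y) ≤ L * dist x y) (hf0 : f o = o) :
    (periods o f).Finite ∧
      {l : ℂ | ¬ Function.Bijective (fun v => T v - l • v)} \ {0} =
        ⋃ n ∈ periods o f, {z : ℂ | z ^ n = 1} := by
  refine ⟨periods_finite hT hTf hL0 hL hf0, ?_⟩
  ext l
  simp only [Set.mem_sdiff, Set.mem_ofPred_eq, Set.mem_singleton_iff, Set.mem_iUnion, exists_prop]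
  constructor
  · rintro ⟨hb, hl⟩
    obtain ⟨φ, hφ, hφT⟩ := exists_dual_eigenvector T hT hl hb
    exact eigen_period hT hTf hL0 hL hf0 hl hφ hφT
  · rintro ⟨n, hn, hz⟩
    refine ⟨?_, ?_⟩
    · intro hb
      obtain ⟨v, hv, hTv⟩ := period_eigen hTf hn hz
      apply hv
      apply hb.1
      simp [hTv]
    · rintro rfl
      rw [zero_pow (by have := hn.1; omega)] at hz
      exact zero_ne_one hz

/-! ### Existence and uniqueness of the linearisation -/

/-- composition with `f` on `Lip0`. -/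
def compOp {L : ℝ} (hL0 : 0 ≤ L) (hL : ∀ x y, dist (f x) (f y) ≤ L * dist x y) (hf0 : f o = o) :
    Lip0 M o →L[ℂ] Lip0 M o :=
  LinearMap.mkContinuous
    { toFun := fun h => Lip0.mk (fun x => h.fn (f x)) (by rw [hf0]; exact h.fn_base) (‖h‖ * L)
        (mul_nonneg (norm_nonneg _) hL0) (fun x y => by
          refine (h.norm_sub_le (f x) (f y)).trans ?_
          rw [mul_assoc]
          exact mul_le_mul_of_nonneg_left (hL x y) (norm_nonneg _))
      map_add' := fun _ _ => rfl
      map_smul' := fun _ _ => rfl } L (fun h => by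
        refine Lip0.norm_le' _ (mul_nonneg hL0 (norm_nonneg _)) fun x y => ?_
        refine (h.norm_sub_le (f x) (f y)).trans ?_
        rw [mul_comm L, mul_assoc]
        exact mul_le_mul_of_nonneg_left (hL x y) (norm_nonneg _))

/-- the linearisation exists and is unique -/
theorem exists_unique_hat {L : ℝ} (hL0 : 0 ≤ L) (hL : ∀ x y, dist (f x) (f y) ≤ L * dist x y)
    (hf0 : f o = o) :
    ∃! T : FreeSp M o →L[ℂ] FreeSp M o, ∀ x, T (dl M o x) = dl M o (f x) := by
  let C := compOp hL0 hL hf0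
  let D : StrongDual ℂ (Lip0 M o) →L[ℂ] StrongDual ℂ (Lip0 M o) := dualOp C
  have hD : ∀ x, D (dlt M o x) = dlt M o (f x) := fun x => rfl
  have hmem : ∀ v ∈ LFree M o, D v ∈ LFree M o := by
    intro v hv
    have h1 : Submodule.span ℂ (Set.range (dlt M o)) ≤
        (Submodule.span ℂ (Set.range (dlt M o))).comap (D : _ →ₗ[ℂ] _) := by
      rw [Submodule.span_le]
      rintro _ ⟨x, rfl⟩
      exact Submodule.subset_span ⟨f x, (hD x).symm⟩
    have h2 : Set.MapsTo D ((Submodule.span ℂ (Set.range (dlt M o)) : Submodule ℂ _) : Set _)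
        ((Submodule.span ℂ (Set.range (dlt M o)) : Submodule ℂ _) : Set _) := fun w hw => h1 hw
    exact map_mem_closure D.continuous hv h2
  let D' : FreeSp M o →L[ℂ] FreeSp M o :=
    (D.comp (LFree M o).subtypeL).codRestrict (LFree M o) (fun v => hmem _ v.2)
  refine ⟨D', fun x => rfl, fun S hS => ?_⟩
  -- uniqueness
  have hext : ∀ v, S v = D' v := by
    intro v
    by_contra hne
    have hne' : S v - D' v ≠ 0 := sub_ne_zero.2 hne
    obtain ⟨φ, -, hφ⟩ := exists_dual_vector ℂ (S v - D' v) (norm_ne_zero_iff.2 hne')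
    have h1 : φ.comp (S - D') = 0 := by
      apply dual_ext
      intro x
      change φ (S (dl M o x) - D' (dl M o x)) = 0
      rw [hS]
      have : D' (dl M o x) = dl M o (f x) := rfl
      rw [this, sub_self, map_zero]
    have h2 : φ (S v - D' v) = 0 := by
      have := congrArg (fun ψ : StrongDual ℂ (FreeSp M o) => ψ v) h1
      exact this
    rw [h2] at hφ
    have h3 : ‖S v - D' v‖ = 0 := RCLike.ofReal_eq_zero.1 hφ.symm
    exact hne' (norm_eq_zero.1 h3)
  exact ContinuousLinearMap.ext hext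

end Pool.Agent.X205.LipSpec
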